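import Mathlib

/-!
# Periodic groups saturated by a class of finite groups

Definitions, and the finiteness of the subgroup generated by two involutions of a periodic group.
-/

namespace SatGrp

universe u

/-- `G` is saturated by the class `X` of finite groups: every finite subgroup of `G` lies in a finite subgroup which belongs to `X`. -/
def Saturated (X : ∀ (L : Type u) [Group L], Prop) (G : Type u) [Group G] : Prop :=
  ∀ K : Subgroup G, Finite K → ∃ L : Subgroup G, K ≤ L ∧ Finite L ∧ X L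

/-- `y` is a product of at most `c` elements, each of which is conjugate to `x` or to `x⁻¹` -/
def ConjProd {G : Type u} [Group G] (c : ℕ) (x y : G) : Prop :=
  ∃ l : List G, l.length ≤ c ∧ (∀ z ∈ l, IsConj x z ∨ IsConj x⁻¹ z) ∧ l.prod = y

/-- `G` is uniformly simple with constant `c`: for all `x ≠ 1` and `y`, `y` is a product of at most `c` conjugates of `x`
and `x⁻¹` -/
def UniformlySimple (c : ℕ) (G : Type u) [Group G] : Prop := ∀ x y : G, x ≠ 1 → ConjProd c x y

section dihedral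

variable {G : Type u} [Group G]

theorem swap {i j : G} (hi : i * i = 1) (hj : j * j = 1) (k : ℤ) : i * (i * j) ^ k = (i * j) ^ (-k) * i := by
  have h1 : i * (i * j) * i = (i * j)⁻¹ := by
    rw [mul_inv_rev, inv_eq_of_mul_eq_one_right hi, inv_eq_of_mul_eq_one_right hj, ← mul_assoc, hi, one_mul]
  have hii : i⁻¹ = i := inv_eq_of_mul_eq_one_right hi
  have h2 : MulAut.conj i (i * j) = (i * j)⁻¹ := by rw [MulAut.conj_apply, hii]; exact h1
  have h3 : MulAut.conj i ((i * j) ^ k) = (i * j) ^ (-k) := by rw [map_zpow, h2, inv_zpow, zpow_neg]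
  rw [MulAut.conj_apply, hii] at h3
  rw [← h3, mul_assoc (i * (i * j) ^ k), hi, mul_one]

/-- the subgroup of the elements `(i j)^k` and `(i j)^k i` -/
def dih {i j : G} (hi : i * i = 1) (hj : j * j = 1) : Subgroup G where
  carrier := {x | ∃ k : ℤ, x = (i * j) ^ k ∨ x = (i * j) ^ k * i}
  one_mem' := ⟨0, Or.inl (by simp)⟩
  mul_mem' := by
    rintro a b ⟨k, rfl | rfl⟩ ⟨l, rfl | rfl⟩
    · exact ⟨k + l, Or.inl (zpow_add _ _ _).symm⟩
    · exact ⟨k + l, Or.inr (by rw [zpow_add, mul_assoc])⟩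
    · exact ⟨k - l, Or.inr (by rw [mul_assoc, swap hi hj, ← mul_assoc, ← zpow_add, sub_eq_add_neg])⟩
    · refine ⟨k - l, Or.inl ?_⟩
      rw [mul_assoc, ← mul_assoc i, swap hi hj, mul_assoc ((i * j) ^ (-l)), hi, mul_one, ← zpow_add, sub_eq_add_neg]
  inv_mem' := by
    rintro a ⟨k, rfl | rfl⟩
    · exact ⟨-k, Or.inl (zpow_neg _ _).symm⟩
    · refine ⟨k, Or.inr ?_⟩
      rw [mul_inv_rev, ← zpow_neg, inv_eq_of_mul_eq_one_right hi, swap hi hj, neg_neg]

theorem left_mem_dih {i j : G} (hi : i * i = 1) (hj : j * j = 1) : i ∈ dih hi hj := ⟨0, Or.inr (by simp)⟩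

theorem right_mem_dih {i j : G} (hi : i * i = 1) (hj : j * j = 1) : j ∈ dih hi hj :=
  ⟨-1, Or.inr (by rw [zpow_neg, zpow_one, mul_inv_rev, inv_eq_of_mul_eq_one_right hi, inv_eq_of_mul_eq_one_right hj, mul_assoc,
    hi, mul_one])⟩

theorem finite_dih {i j : G} (hi : i * i = 1) (hj : j * j = 1) (h : IsOfFinOrder (i * j)) : Finite (dih hi hj) := by
  have h1 : (Subgroup.zpowers (i * j) : Set G).Finite := finite_zpowers.2 h
  have h2 : ((dih hi hj : Subgroup G) : Set G) ⊆ (Subgroup.zpowers (i * j) : Set G) ∪ (fun x => x * i) '' (Subgroup.zpowers (i * j) : Set G) := by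
    rintro x ⟨k, rfl | rfl⟩
    · exact Or.inl ⟨k, rfl⟩
    · exact Or.inr ⟨(i * j) ^ k, ⟨k, rfl⟩, rfl⟩
  exact ((h1.union (h1.image _)).subset h2).to_subtype

end dihedral

section member

variable {G : Type u} [Group G]

theorem finite_zpowers' (ht : ∀ x : G, IsOfFinOrder x) (x : G) : Finite (Subgroup.zpowers x) :=
  (finite_zpowers.2 (ht x)).to_subtype

theorem exists_involution {L : Subgroup G} (hf : Finite L) (h2 : Even (Nat.card L)) : ∃ i ∈ L, i ≠ 1 ∧ i * i = 1 := by
  have : Fact (Nat.Prime 2) := ⟨Nat.prime_two⟩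
  obtain ⟨x, hx⟩ := exists_prime_orderOf_dvd_card' (G := L) 2 h2.two_dvd
  refine ⟨x, x.2, ?_, ?_⟩
  · intro h
    have h1 : x = 1 := Subtype.ext h
    rw [h1, orderOf_one] at hx
    omega
  · have h1 : x ^ 2 = 1 := by rw [← hx]; exact pow_orderOf_eq_one x
    rw [pow_two] at h1
    exact congrArg Subtype.val h1

end member

end SatGrp
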