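import Pool.Agent.Lib.MP_4a7ffb_al.SG.Selfc

/-!
# Chains of centralisers in linear groups
-/

namespace SatGrp

universe u

/-- `L` is isomorphic to a group of `n × n` matrices over some field -/
def LinearOfDegree (n : ℕ) (L : Type u) [Group L] : Prop :=
  ∃ (F : Type u) (_ : Field F) (φ : L →* Matrix (Fin n) (Fin n) F), Function.Injective φ

section

variable {L : Type u} [Group L] {F : Type u} [Field F] {n : ℕ} (φ : L →* Matrix (Fin n) (Fin n) F)

/-- the matrices which commute with `φ s` for all `s ∈ S` -/
def comm (S : Set L) : Submodule F (Matrix (Fin n) (Fin n) F) where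
  carrier := {A | ∀ s ∈ S, φ s * A = A * φ s}
  add_mem' := by
    intro A B hA hB s hs
    rw [mul_add, add_mul, hA s hs, hB s hs]
  zero_mem' := by
    intro s _
    rw [mul_zero, zero_mul]
  smul_mem' := by
    intro a A hA s hs
    rw [mul_smul_comm, smul_mul_assoc, hA s hs]

theorem mem_comm_iff (hφ : Function.Injective φ) (S : Set L) (g : L) : φ g ∈ comm φ S ↔ g ∈ Subgroup.centralizer S := by
  rw [Subgroup.mem_centralizer_iff]
  constructor
  · intro h s hs
    have := h s hs
    rw [← map_mul, ← map_mul] at this
    exact hφ this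
  · intro h s hs
    rw [← map_mul, ← map_mul, h s hs]

theorem centralizerDim_of_linear (hφ : Function.Injective φ) : CentralizerDim (n ^ 2) L := by
  intro m S hS
  -- the double centralisers
  let T : Fin (m + 1) → Set L := fun i => (Subgroup.centralizer ((Subgroup.centralizer (S i) : Subgroup L) : Set L) : Subgroup L)
  have hST : ∀ i, S i ⊆ T i := by
    intro i s hs
    refine SetLike.mem_coe.2 (Subgroup.mem_centralizer_iff.2 fun g hg => ?_)
    exact (Subgroup.mem_centralizer_iff.1 hg s hs).symm
  have hCT : ∀ i, Subgroup.centralizer (T i) = Subgroup.centralizer (S i) := by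
    intro i
    refine le_antisymm (Subgroup.centralizer_le (hST i)) ?_
    intro g hg
    rw [Subgroup.mem_centralizer_iff]
    intro t ht
    exact ((Subgroup.mem_centralizer_iff.1 (SetLike.mem_coe.1 ht)) g hg).symm
  have hlt : ∀ i j, i < j → Module.finrank F (comm φ (T j)) < Module.finrank F (comm φ (T i)) := by
    intro i j hij
    refine Submodule.finrank_lt_finrank_of_lt ?_
    have hle : comm φ (T j) ≤ comm φ (T i) := by
      intro A hA s hs
      refine hA s ?_
      have h1 : Subgroup.centralizer (S j) ≤ Subgroup.centralizer (S i) := (hS hij).le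
      exact Subgroup.centralizer_le (SetLike.coe_subset_coe.2 h1) hs
    refine lt_of_le_of_ne hle fun heq => ?_
    obtain ⟨g, hg1, hg2⟩ := SetLike.exists_of_lt (hS hij)
    refine hg2 ?_
    have h2 : φ g ∈ comm φ (T i) := by rw [mem_comm_iff φ hφ, hCT]; exact hg1
    rw [← heq, mem_comm_iff φ hφ, hCT] at h2
    exact h2
  have hbd : ∀ i, Module.finrank F (comm φ (T i)) < n ^ 2 + 1 := by
    intro i
    have h1 := Submodule.finrank_le (comm φ (T i))
    rw [Module.finrank_matrix, Fintype.card_fin, Module.finrank_self, mul_one, ← pow_two] at h1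
    omega
  have hinj : Function.Injective fun i : Fin (m + 1) => (⟨Module.finrank F (comm φ (T i)), hbd i⟩ : Fin (n ^ 2 + 1)) := by
    intro i j hij
    have h1 : Module.finrank F (comm φ (T i)) = Module.finrank F (comm φ (T j)) := congrArg Fin.val hij
    rcases lt_trichotomy i j with h | h | h
    · exact absurd h1 (hlt i j h).ne'
    · exact h
    · exact absurd h1 (hlt j i h).ne
  have h2 := Fintype.card_le_of_injective _ hinj
  rw [Fintype.card_fin, Fintype.card_fin] at h2
  omega

end

theorem LinearOfDegree.centralizerDim {n : ℕ} {L : Type u} [Group L] (h : LinearOfDegree n L) : CentralizerDim (n ^ 2) L := by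
  obtain ⟨F, _, φ, hφ⟩ := h
  exact centralizerDim_of_linear φ hφ

end SatGrp
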