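import Pool.Agent.Lib.MP_4a7ffb_al.SG.Basic

/-!
# Periodic groups saturated by a class of finite groups: members with trivial centraliser
-/

namespace SatGrp

universe u

/-- every strictly decreasing chain `C(S_0) > C(S_1) > ... > C(S_m)` of centralisers of subsets of `L` has `m ≤ d` -/
def CentralizerDim (d : ℕ) (L : Type u) [Group L] : Prop :=
  ∀ (m : ℕ) (S : Fin (m + 1) → Set L), StrictAnti (fun i => Subgroup.centralizer (S i)) → m ≤ d

section

variable {G : Type u} [Group G]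

theorem finite_adjoin {L : Subgroup G} (hf : Finite L) {z : G} (hz : IsOfFinOrder z)
    (hc : z ∈ Subgroup.centralizer (L : Set G)) : ∃ M : Subgroup G, Finite M ∧ L ≤ M ∧ z ∈ M := by
  have hfz : Finite (Subgroup.zpowers z) := (finite_zpowers.2 hz).to_subtype
  have hcomm : ∀ (x : L) (y : Subgroup.zpowers z), Commute (L.subtype x) ((Subgroup.zpowers z).subtype y) := by
    rintro ⟨x, hx⟩ ⟨y, k, rfl⟩
    have h1 : Commute x z := Subgroup.mem_centralizer_iff.1 hc x hx
    exact h1.zpow_right k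
  have h2 : Finite (MonoidHom.noncommCoprod L.subtype (Subgroup.zpowers z).subtype hcomm).range :=
    Finite.of_surjective _ (MonoidHom.rangeRestrict_surjective _)
  refine ⟨_, h2, ?_, ?_⟩
  · intro x hx
    exact ⟨(⟨x, hx⟩, 1), by simp⟩
  · exact ⟨(1, ⟨z, Subgroup.mem_zpowers z⟩), by simp⟩

theorem finite_normalizer {L : Subgroup G} (hf : Finite L) (hc : Subgroup.centralizer (L : Set G) = ⊥) :
    Finite (Subgroup.normalizer (L : Set G)) := by
  have h1 : Function.Injective (Subgroup.normalizerMonoidHom L) := by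
    rw [← MonoidHom.ker_eq_bot_iff, Subgroup.normalizerMonoidHom_ker, hc]
    simp
  have h2 : Finite (MulAut L) := by
    refine Finite.of_injective (fun f : MulAut L => (f : L → L)) ?_
    exact DFunLike.coe_injective
  exact Finite.of_injective _ h1

end

/-- Let `G` be a periodic group saturated by finite groups with trivial centre in which the chains of centralisers have length at
most `d`. Every finite subgroup of `G` lies in a member `L` with `C_G(L) = 1`; then `C_G(H) = 1` for all `H ≥ L`, and `N_G(H)` is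
finite if `H` is finite. -/
theorem selfCentral {X : ∀ (L : Type u) [Group L], Prop} {d : ℕ}
    (hX : ∀ (L : Type u) [Group L], Finite L → X L → Subgroup.center L = ⊥ ∧ CentralizerDim d L)
    {G : Type u} [Group G] (ht : ∀ x : G, IsOfFinOrder x) (hs : Saturated X G) (K : Subgroup G) (hK : Finite K) :
    ∃ L : Subgroup G, K ≤ L ∧ Finite L ∧ X L ∧ ∀ H : Subgroup G, L ≤ H → Subgroup.centralizer (H : Set G) = ⊥ ∧
      (Finite H → Finite (Subgroup.normalizer (H : Set G))) := by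
  suffices h : ∃ L : Subgroup G, K ≤ L ∧ Finite L ∧ X L ∧ Subgroup.centralizer (L : Set G) = ⊥ by
    obtain ⟨L, h1, h2, h3, h4⟩ := h
    refine ⟨L, h1, h2, h3, fun H hH => ?_⟩
    have h5 : Subgroup.centralizer (H : Set G) = ⊥ := by
      rw [eq_bot_iff, ← h4]
      exact Subgroup.centralizer_le hH
    exact ⟨h5, fun hf => finite_normalizer hf h5⟩
  by_contra hcon
  have H : ∀ L : {L : Subgroup G // K ≤ L ∧ Finite L ∧ X L}, ∃ (z : G) (L' : {L : Subgroup G // K ≤ L ∧ Finite L ∧ X L}),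
      z ∈ Subgroup.centralizer (L.1 : Set G) ∧ z ≠ 1 ∧ L.1 ≤ L'.1 ∧ z ∈ L'.1 := by
    rintro ⟨L, h1, h2, h3⟩
    have h4 : Subgroup.centralizer (L : Set G) ≠ ⊥ := fun h => hcon ⟨L, h1, h2, h3, h⟩
    obtain ⟨z, hz⟩ := Subgroup.ne_bot_iff_exists_ne_one.1 h4
    obtain ⟨M, hM1, hM2, hM3⟩ := finite_adjoin h2 (ht z.1) z.2
    obtain ⟨L', h5, h6, h7⟩ := hs M hM1
    exact ⟨z.1, ⟨L', h1.trans (hM2.trans h5), h6, h7⟩, z.2, fun h => hz (Subtype.ext h), hM2.trans h5, h5 hM3⟩
  choose zz nx hz1 hz2 hz3 hz4 using H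
  obtain ⟨L0, h1, h2, h3⟩ := hs K hK
  -- the sequence of members
  let Ls : ℕ → {L : Subgroup G // K ≤ L ∧ Finite L ∧ X L} := fun n => nx^[n] ⟨L0, h1, h2, h3⟩
  have hLs : ∀ n, Ls (n + 1) = nx (Ls n) := fun n => Function.iterate_succ_apply' _ _ _
  have hmono : Monotone fun n => (Ls n).1 := by
    refine monotone_nat_of_le_succ fun n => ?_
    rw [hLs]
    exact hz3 _
  have hmem : ∀ k n, k < n → zz (Ls k) ∈ (Ls n).1 := by
    intro k n hkn
    have h5 : zz (Ls k) ∈ (Ls (k + 1)).1 := by rw [hLs]; exact hz4 _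
    exact hmono hkn h5
  have hcen : ∀ k n, n ≤ k → ∀ g ∈ (Ls n).1, g * zz (Ls k) = zz (Ls k) * g := fun k n hnk g hg =>
    Subgroup.mem_centralizer_iff.1 (hz1 (Ls k)) g (hmono hnk hg)
  let m := d + 1
  obtain ⟨-, hdim⟩ := hX (Ls m).1 (Ls m).2.2.1 (Ls m).2.2.2
  have hlt := hdim m (fun i => {x : (Ls m).1 | ∃ k, m - (i : ℕ) ≤ k ∧ k < m ∧ (x : G) = zz (Ls k)}) ?_
  · exact absurd hlt (by omega)
  rw [Fin.strictAnti_iff_succ_lt]
  intro i
  have him : (i : ℕ) < m := i.2
  refine lt_of_le_of_ne ?_ ?_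
  · refine Subgroup.centralizer_le ?_
    rintro x ⟨k, hk1, hk2, hk3⟩
    exact ⟨k, by simp only [Fin.val_castSucc, Fin.val_succ] at hk1 ⊢; omega, hk2, hk3⟩
  · intro heq
    set n := m - (i : ℕ) with hn
    have hn0 : n - 1 < n := by omega
    have hnm : n ≤ m := Nat.sub_le _ _
    obtain ⟨hc, -⟩ := hX (Ls n).1 (Ls n).2.2.1 (Ls n).2.2.2
    have hzn : zz (Ls (n - 1)) ∈ (Ls n).1 := hmem _ _ hn0
    have h5 : (⟨zz (Ls (n - 1)), hzn⟩ : (Ls n).1) ∉ Subgroup.center (Ls n).1 := by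
      rw [hc, Subgroup.mem_bot]
      exact fun h => hz2 _ (congrArg Subtype.val h)
    rw [Subgroup.mem_center_iff] at h5
    push Not at h5
    obtain ⟨⟨g, hg⟩, h6⟩ := h5
    have h7 : (⟨g, hmono hnm hg⟩ : (Ls m).1) ∈
        Subgroup.centralizer {x : (Ls m).1 | ∃ k, m - ((i.castSucc : Fin (m + 1)) : ℕ) ≤ k ∧ k < m ∧ (x : G) = zz (Ls k)} := by
      rw [Subgroup.mem_centralizer_iff]
      rintro ⟨x, hx⟩ ⟨k, hk1, hk2, hk3⟩
      simp only at hk3
      subst hk3
      refine Subtype.ext ?_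
      have h8 : n ≤ k := by simpa [hn] using hk1
      exact (hcen k n h8 g hg).symm
    rw [← heq, Subgroup.mem_centralizer_iff] at h7
    have h9 := h7 ⟨zz (Ls (n - 1)), hmem _ _ (by omega)⟩ ⟨n - 1, by simp only [Fin.val_succ]; omega, by omega, rfl⟩
    exact h6 (Subtype.ext (congrArg Subtype.val h9).symm)

end SatGrp
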