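import Pool.Agent.Lib.MP_4a7ffb_al.SG.Basic

/-!
# Periodic groups saturated by a class of finite groups: uniform simplicity
-/

namespace SatGrp

universe u

section conjprod

variable {G : Type u} [Group G]

theorem ConjProd.mono {a b : ℕ} {x y : G} (h : ConjProd a x y) (hab : a ≤ b) : ConjProd b x y := by
  obtain ⟨l, h1, h2, h3⟩ := h
  exact ⟨l, h1.trans hab, h2, h3⟩

theorem ConjProd.map {H : Type u} [Group H] (f : G →* H) {a : ℕ} {x y : G} (h : ConjProd a x y) : ConjProd a (f x) (f y) := by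
  obtain ⟨l, h1, h2, h3⟩ := h
  refine ⟨l.map f, by rw [List.length_map]; exact h1, ?_, ?_⟩
  · intro z hz
    obtain ⟨w, hw, rfl⟩ := List.mem_map.1 hz
    rcases h2 w hw with h | h
    · exact Or.inl (f.map_isConj h)
    · refine Or.inr ?_
      rw [← map_inv]
      exact f.map_isConj h
  · rw [← h3, map_list_prod]

theorem ConjProd.mul {a b : ℕ} {x y z : G} (h : ConjProd a x y) (h' : ConjProd b x z) : ConjProd (a + b) x (y * z) := by
  obtain ⟨l, h1, h2, h3⟩ := h
  obtain ⟨l', h1', h2', h3'⟩ := h'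
  refine ⟨l ++ l', by rw [List.length_append]; omega, ?_, by rw [List.prod_append, h3, h3']⟩
  intro w hw
  rcases List.mem_append.1 hw with h | h
  · exact h2 w h
  · exact h2' w h

theorem ConjProd.one (x : G) : ConjProd 0 x 1 := ⟨[], le_rfl, by simp, rfl⟩

theorem ConjProd.conj {a : ℕ} {x y z : G} (h : ConjProd a x y) (hyz : IsConj y z) : ConjProd a x z := by
  obtain ⟨g, hg⟩ := isConj_iff.1 hyz
  obtain ⟨l, h1, h2, h3⟩ := h
  refine ⟨l.map (MulAut.conj g), by rw [List.length_map]; exact h1, ?_, ?_⟩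
  · intro w hw
    obtain ⟨v, hv, rfl⟩ := List.mem_map.1 hw
    have hc : IsConj v (MulAut.conj g v) := isConj_iff.2 ⟨g, (MulAut.conj_apply g v).symm⟩
    rcases h2 v hv with h | h
    · exact Or.inl (h.trans hc)
    · exact Or.inr (h.trans hc)
  · have h4 : (l.map (MulAut.conj g)).prod = MulAut.conj g l.prod := (map_list_prod (MulAut.conj g) l).symm
    rw [h4, h3, MulAut.conj_apply, hg]

theorem ConjProd.inv {a : ℕ} {x y : G} (h : ConjProd a x y) : ConjProd a x y⁻¹ := by
  obtain ⟨l, h1, h2, h3⟩ := h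
  refine ⟨(l.map fun x => x⁻¹).reverse, by rw [List.length_reverse, List.length_map]; exact h1, ?_, ?_⟩
  · intro w hw
    obtain ⟨v, hv, rfl⟩ := List.mem_map.1 (List.mem_reverse.1 hw)
    rcases h2 v hv with h | h
    · refine Or.inr ?_
      obtain ⟨c, hc⟩ := isConj_iff.1 h
      exact isConj_iff.2 ⟨c, by rw [← hc]; group⟩
    · refine Or.inl ?_
      obtain ⟨c, hc⟩ := isConj_iff.1 h
      exact isConj_iff.2 ⟨c, by rw [← hc]; group⟩
  · rw [← h3, List.prod_inv_reverse]

theorem ConjProd.list {a : ℕ} {x : G} : ∀ l : List G, (∀ w ∈ l, ConjProd a x w) → ConjProd (a * l.length) x l.prod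
  | [], _ => by rw [List.length_nil, mul_zero, List.prod_nil]; exact ConjProd.one x
  | w :: l, h => by
    rw [List.prod_cons, List.length_cons, mul_add, mul_one, add_comm]
    exact (h w (List.mem_cons_self)).mul (ConjProd.list l fun v hv => h v (List.mem_cons_of_mem _ hv))

theorem ConjProd.trans {a b : ℕ} {x y z : G} (h : ConjProd a x y) (h' : ConjProd b y z) : ConjProd (a * b) x z := by
  obtain ⟨l, h1, h2, h3⟩ := h'
  have h4 : ∀ w ∈ l, ConjProd a x w := by
    intro w hw
    rcases h2 w hw with h5 | h5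
    · exact h.conj h5
    · exact h.inv.conj h5
  rw [← h3]
  exact (ConjProd.list l h4).mono (Nat.mul_le_mul_left a h1)

theorem ConjProd.of_subgroup {L : Subgroup G} {a : ℕ} {x y : L} (h : ConjProd a x y) : ConjProd a (x : G) (y : G) :=
  h.map L.subtype

end conjprod

/-- A periodic group saturated by uniformly simple finite groups of even order is uniformly simple. -/
theorem uniform {X : ∀ (L : Type u) [Group L], Prop} {c : ℕ}
    (hX : ∀ (L : Type u) [Group L], Finite L → X L → Even (Nat.card L) ∧ UniformlySimple c L)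
    {G : Type u} [Group G] (ht : ∀ x : G, IsOfFinOrder x) (hs : Saturated X G) : UniformlySimple (c ^ 3) G := by
  intro x y hx
  have hfx := finite_zpowers' ht x
  have hfy := finite_zpowers' ht y
  obtain ⟨L1, hxL, hf1, hX1⟩ := hs _ hfx
  obtain ⟨L2, hyL, hf2, hX2⟩ := hs _ hfy
  obtain ⟨he1, hu1⟩ := hX L1 hf1 hX1
  obtain ⟨he2, hu2⟩ := hX L2 hf2 hX2
  obtain ⟨i, hi, hi1, hii⟩ := exists_involution hf1 he1
  obtain ⟨j, hj, hj1, hjj⟩ := exists_involution hf2 he2
  obtain ⟨L3, hdL, hf3, hX3⟩ := hs _ (finite_dih hii hjj (ht _))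
  obtain ⟨he3, hu3⟩ := hX L3 hf3 hX3
  have hx1 : x ∈ L1 := hxL (Subgroup.mem_zpowers x)
  have hy2 : y ∈ L2 := hyL (Subgroup.mem_zpowers y)
  have hi3 : i ∈ L3 := hdL (left_mem_dih hii hjj)
  have hj3 : j ∈ L3 := hdL (right_mem_dih hii hjj)
  have h1 : ConjProd c x i := (hu1 ⟨x, hx1⟩ ⟨i, hi⟩ fun h => hx (congrArg Subtype.val h)).of_subgroup
  have h2 : ConjProd c i j := (hu3 ⟨i, hi3⟩ ⟨j, hj3⟩ fun h => hi1 (congrArg Subtype.val h)).of_subgroup
  have h3 : ConjProd c j y := (hu2 ⟨j, hj⟩ ⟨y, hy2⟩ fun h => hj1 (congrArg Subtype.val h)).of_subgroup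
  have h4 := (h1.trans h2).trans h3
  rwa [show c * c * c = c ^ 3 by ring] at h4

/-- a uniformly simple group is simple -/
theorem UniformlySimple.isSimple {c : ℕ} {G : Type u} [Group G] [Nontrivial G] (h : UniformlySimple c G) : IsSimpleGroup G := by
  refine ⟨fun N hN => ?_⟩
  rw [or_iff_not_imp_left]
  intro hb
  obtain ⟨x', hx'⟩ := Subgroup.ne_bot_iff_exists_ne_one.1 hb
  have hx : (x' : G) ∈ N := x'.2
  have hx1 : (x' : G) ≠ 1 := fun h => hx' (Subtype.ext h)
  rw [eq_top_iff]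
  intro y _
  obtain ⟨l, -, h2, h3⟩ := h x' y hx1
  rw [← h3]
  refine Subgroup.list_prod_mem N fun z hz => ?_
  rcases h2 z hz with h | h
  · obtain ⟨g, hg⟩ := isConj_iff.1 h
    rw [← hg]
    exact hN.conj_mem _ hx g
  · obtain ⟨g, hg⟩ := isConj_iff.1 h
    rw [← hg]
    exact hN.conj_mem _ (N.inv_mem hx) g

/-- a group saturated by finite groups of even order is not trivial -/
theorem nontrivial_of_saturated {X : ∀ (L : Type u) [Group L], Prop}
    (hX : ∀ (L : Type u) [Group L], Finite L → X L → Even (Nat.card L))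
    {G : Type u} [Group G] (hs : Saturated X G) : Nontrivial G := by
  obtain ⟨L, -, hf, hL⟩ := hs ⊥ inferInstance
  obtain ⟨i, -, hi, -⟩ := exists_involution hf (hX L hf hL)
  exact ⟨⟨i, 1, hi⟩⟩

end SatGrp
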